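import Pool.Agent.TH678.SETH.Down
import Pool.Agent.TH678.WP.Up
import Pool.Agent.TH678.WP.Down
import Pool.Agent.H620R2.Gauge2.V7
import Pool.Agent.H620R2.Gauge2.Trans

/-! The parametrized hit problems are in the classes of search problems; the law for `W[P]`. -/

set_option autoImplicit false

namespace Pool.Agent.X15.GL

open Filter Pool.Agent.NPC Pool.Agent.H620R2.Gauge Pool.Agent.H622R2 Pool.Agent.H622R2.Exp
  Pool.Agent.TH678.ETH Pool.Agent.TH678.SETH Pool.Agent.TH678.WP

/-- verification of a hit -/
theorem isFP_hit {e v w : List Bool → List Bool} (he : Poly e) (hv : Poly v) (hw : Poly w)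
    (A : Oracle) : ∃ V : List Bool → List Bool, IsFP A V ∧ ∀ z, V z = [true] ↔
      ((w z).length = (e z).length ∧
        ∀ i < (e z).length, A (v z ++ w z ++ List.replicate i true) = true) := by
  set Q : List Bool → List (List Bool) := fun y => (List.range (e y).length).map (fun i =>
    v y ++ w y ++ List.replicate (min i (e y).length) true) with hQ
  set H : List Bool × List Bool → List Bool := fun y =>
    [decide ((w y.1).length = (e y.1).length) && y.2.all (fun b => b)] with hH
  have pQ : Poly Q := by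
    refine NPC.Poly.map (F := fun (y : List Bool) (i : ℕ) =>
      v y ++ w y ++ List.replicate (min i (e y).length) true)
      (UPoly.range (UPoly.length he)) ?_
    have hx' : Poly (fun p : List Bool × ℕ => v p.1) := hv.comp (Poly.fst Poly.id)
    have hw' : Poly (fun p : List Bool × ℕ => w p.1) := hw.comp (Poly.fst Poly.id)
    have he' : Poly (fun p : List Bool × ℕ => e p.1) := he.comp (Poly.fst Poly.id)
    refine Poly.append (Poly.append hx' hw') (V7.poly_replicate ?_)
    exact UPoly.of_le (Poly.min (Poly.snd Poly.id) (Poly.length he')) (UPoly.length he')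
      (fun p => min_le_right _ _)
  have pH : Poly H := by
    have he' : Poly (fun p : List Bool × List Bool => e p.1) := he.comp (Poly.fst Poly.id)
    have hw' : Poly (fun p : List Bool × List Bool => w p.1) := hw.comp (Poly.fst Poly.id)
    refine Poly.cons (Poly.and (Poly.decide_eq (Poly.length hw') (Poly.length he')) ?_)
      (NPC.Poly.const [])
    exact Poly.all (p := fun (_ : List Bool × List Bool) (b : Bool) => b) (Poly.snd Poly.id)
      (Poly.snd Poly.id)
  refine ⟨fun y => H (y, (Q y).map A), IsFP.tt pQ pH, fun z => ?_⟩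
  simp only [hH, hQ, List.cons.injEq, and_true, Bool.and_eq_true, decide_eq_true_eq,
    List.all_eq_true, List.mem_map, List.mem_range]
  constructor
  · rintro ⟨h1, h2⟩
    refine ⟨h1, fun i hi => ?_⟩
    apply h2
    refine ⟨_, ⟨i, hi, rfl⟩, ?_⟩
    rw [min_eq_left hi.le]
  · rintro ⟨h1, h2⟩
    refine ⟨h1, ?_⟩
    rintro b ⟨_, ⟨i, hi, rfl⟩, rfl⟩
    rw [min_eq_left hi.le]
    exact h2 i hi

theorem exists_hit_iff (A : Oracle) (x : List Bool) (n m : ℕ) (hnm : n ≤ m) :
    (∃ j < 2 ^ n, ∀ i < n, A (wt x n j i) = true) ↔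
      ∃ w : List Bool, w.length ≤ m ∧ (w.length = n ∧
        ∀ i < n, A (x ++ w ++ List.replicate i true) = true) := by
  constructor
  · rintro ⟨j, hj, h⟩
    exact ⟨bitsOf n j, by rw [length_bitsOf]; exact hnm, length_bitsOf _ _, h⟩
  · rintro ⟨w, _, hw, h⟩
    obtain ⟨j, hj, hb⟩ := exists_bitsOf w
    rw [hw] at hj hb
    refine ⟨j, hj, fun i hi => ?_⟩
    unfold wt
    rw [hb]
    exact h i hi

theorem isParN_hitP (A : Oracle) : IsParN A (hitP A) := by
  obtain ⟨V, hV, h⟩ := isFP_hit (e := fun z => (unpair (unpair z).2).1)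
    (v := fun z => (unpair (unpair z).2).2) (w := fun z => (unpair z).1)
    (Poly.fst (poly_unpair.comp (Poly.snd poly_unpair)))
    (Poly.snd (poly_unpair.comp (Poly.snd poly_unpair))) (Poly.fst poly_unpair) A
  refine ⟨V, hV, fun y => ?_⟩
  have := exists_hit_iff A (unpair y).2 (par y) (par y) le_rfl
  unfold hitP
  rw [Set.mem_ofPred_eq, this]
  refine exists_congr fun w => and_congr_right fun _ => ?_
  rw [h]
  simp only [unpair_pairBits]
  rfl

theorem inWP_hitW (A : Oracle) : InWP A (hitW A) := by
  obtain ⟨V, hV, h⟩ := isFP_hit (e := fun z => List.replicate ((unpair (unpair z).2).1.length *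
      (Nat.log 2 (unpair (unpair z).2).2.length + 1)) true)
    (v := fun z => (unpair (unpair z).2).2) (w := fun z => (unpair z).1)
    (TH678.WP.poly_replicate (UPoly.mul (UPoly.length (Poly.fst (poly_unpair.comp
      (Poly.snd poly_unpair)))) (uPoly_log (Poly.snd (poly_unpair.comp (Poly.snd poly_unpair)))))
      true)
    (Poly.snd (poly_unpair.comp (Poly.snd poly_unpair))) (Poly.fst poly_unpair) A
  refine ⟨fun k => List.replicate k true, fun k => k, V, computable_replicate, Computable.id, hV,
    fun x k => ?_⟩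
  have := exists_hit_iff A x (nn k x.length) (nn k x.length) le_rfl
  unfold hitW
  rw [Set.mem_ofPred_eq]
  simp only
  rw [this]
  unfold nn
  refine exists_congr fun w => and_congr_right fun _ => ?_
  rw [h]
  simp only [unpair_pairBits, List.length_replicate]

/-- problems in `FPT` are in `para-coNP` with advice -/
theorem inCoPN_of_inFPT {A : Oracle} {Q : Set (List Bool × ℕ)} (h : InFPT A Q) : InCoPN A Q := by
  obtain ⟨π, L, _, hL, h⟩ := h
  refine ⟨π, Lᶜ, ?_, fun x k => ?_⟩
  · obtain ⟨V, p, hV, hx⟩ := hL.compl.isNP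
    refine ⟨{z | (unpair z).1 ∈ Lᶜ}, fun _ => [], 0, ?_, fun n => by simp, fun x => ?_⟩
    · have h3 : Poly (fun z : List Bool => (unpair z).1) := Poly.fst poly_unpair
      have h4 : IsP A Lᶜ := hL.compl
      obtain ⟨V', hV', hx'⟩ := h4
      have h5 : IsP A {z | (unpair z).1 ∈ Lᶜ} :=
        ⟨fun z => V' (unpair z).1, hV'.precomp h3, fun z => by
          rw [Set.mem_ofPred_eq, hx']⟩
      exact h5.isNP
    · rw [Set.mem_ofPred_eq, unpair_pairBits]
  · rw [Set.mem_compl_iff, h x k, Set.mem_compl_iff]

end Pool.Agent.X15.GL
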